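import Pool.Agent.Lib.MRL.Defs

/-! TANK MR, the lift to arithmetic progressions (helper42): exact statements.
`q` = modulus, `a` = any residue; the gap of the linking is `q`. -/

set_option autoImplicit false

namespace Pool.Agent.MRAP

open Finset Pool.Agent.MRL

/-- `lam` is constant on the integers `≡ a mod q` in `(t, t + ℓ)` outside of `E`. -/
def ConstOffA (q a : ℕ) (E : Finset ℕ) (t ℓ : ℝ) : Prop := ∀ m n : ℕ, t < m → (m : ℝ) < t + ℓ →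
  m ≡ a [MOD q] → m ∉ E → t < n → (n : ℝ) < t + ℓ → n ≡ a [MOD q] → n ∉ E → lam m = lam n

/-- The deterministic linking with gap `q` and an exceptional set. -/
def ChainA : Prop := ∀ (q a : ℕ) (c R : ℝ), 1 ≤ q → 0 < c → c ≤ 1 → 1000 * q ≤ c * R →
  ∃ T0 : ℝ, ∀ t : ℝ, T0 ≤ t → ∀ E : Finset ℕ, ConstOffA q a E t (c * √t) →
  ∀ n b1 b2 D w w' M d : ℕ, b1.Prime → b2.Prime → b1 ∣ n → b2 ∣ n + q →
    n ≡ a [MOD q] → M ≡ 1 [MOD q] →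
    R * √t < n → (n : ℝ) ≤ 1.01 * R * √t →
    (M : ℝ) ≤ t / n → t / n < M + c ^ 2 / (200 * q) →
    0 < D → 0 < w → 0 < w' → 0 < d → q ∣ D →
    d ∣ b1 * M + w' * D → d ∣ b2 * M + w * D →
    ((b2 * w' + d = b1 * w ∧
        (t / n - M + 0.25 * (c / R) < (w' : ℝ) * D / b1) ∧ ((w' : ℝ) * D / b1 < t / n - M + 0.45 * (c / R)) ∧
        (t / n - M + 0.75 * (c / R) < (w : ℝ) * D / b2) ∧ ((w : ℝ) * D / b2 < t / n - M + 0.95 * (c / R))) ∨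
      (b1 * w + d = b2 * w' ∧
        (t / n - M + 0.25 * (c / R) < (w : ℝ) * D / b2) ∧ ((w : ℝ) * D / b2 < t / n - M + 0.45 * (c / R)) ∧
        (t / n - M + 0.75 * (c / R) < (w' : ℝ) * D / b1) ∧ ((w' : ℝ) * D / b1 < t / n - M + 0.95 * (c / R)))) →
    lam n = lam (n + q) ∨ ∃ N ∈ E, 0 < N ∧ (n / b1 ∣ N ∨ (n + q) / b2 ∣ N ∨
      ∃ p : ℕ, p ∣ N ∧ (d * n + b1 * w * q = b1 * b2 * p ∨ b1 * b2 * p + b1 * w * q = d * n))

/-- The linking statement with an exceptional set, counted by its divisors of size `√t`. -/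
def LinkA : Prop :=
  ∀ (q a : ℕ) (c R eps : ℝ), 1 ≤ q → 0 < c → c ≤ 1 → 1000 * q ≤ c * R → 0 < eps →
    ∃ a1 a2 η : ℝ, 0 < a1 ∧ 0 < a2 ∧ 0 < η ∧ ∃ T₀ : ℝ, ∀ t : ℝ, T₀ ≤ t → ∀ E : Finset ℕ,
    ConstOffA q a E t (c * √t) →
    (∑ N ∈ E, (((Nat.divisors N).filter
      (fun u : ℕ => a1 * √t ≤ (u : ℝ) ∧ (u : ℝ) ≤ a2 * √t)).card : ℝ)) ≤ η * √t →
    ∀ s : Finset ℕ, (∀ n ∈ s, R * √t < n ∧ (n : ℝ) ≤ 1.01 * R * √t ∧
      n ≡ a [MOD q] ∧ ⌊t / n⌋₊ ≡ 1 [MOD q] ∧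
      Int.fract (t / n) < c ^ 2 / (200 * q) ∧ lam n ≠ lam (n + q)) →
    (s.card : ℝ) ≤ eps * √t

/-- Windows of length `h` in which `lam` is constant on the integers `≡ a mod q` are rare
(`a` coprime to `q`). -/
def NoRunsA : Prop := ∀ q a : ℕ, 1 ≤ q → a.Coprime q → ∀ δ : ℝ, 0 < δ → ∃ h : ℕ, ∃ X0 : ℝ,
  ∀ X : ℝ, X0 ≤ X →
  (((Icc ⌈X⌉₊ ⌊2 * X⌋₊).filter (fun x => ∀ i < h, ∀ j < h, x + i ≡ a [MOD q] →
    x + j ≡ a [MOD q] → lam (x + i) = lam (x + j))).card : ℝ) ≤ δ * X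

/-- The end, for one progression with `a` coprime to `q`: an exceptional set `E` with few divisors
of size `√t` cannot make `lam` constant on the progression in `(t, t + c √t)`. -/
def EndA : Prop := ∀ (q a : ℕ) (c : ℝ), 1 ≤ q → a.Coprime q → 0 < c →
  ∃ a1 a2 η : ℝ, 0 < a1 ∧ 0 < a2 ∧ 0 < η ∧ ∃ t0 : ℝ, ∀ t : ℝ, t0 ≤ t → ∀ E : Finset ℕ,
  (∑ N ∈ E, (((Nat.divisors N).filter
      (fun u : ℕ => a1 * √t ≤ (u : ℝ) ∧ (u : ℝ) ≤ a2 * √t)).card : ℝ)) ≤ η * √t →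
  ¬ ConstOffA q a E t (c * √t)

/-- The integers `≡ a mod q` in `(t, t + ℓ)` with the property `p`. -/
noncomputable def prog (q a : ℕ) (t ℓ : ℝ) (p : ℕ → Prop) : Finset ℕ := by
  classical
  exact (Finset.range (⌊t + ℓ⌋₊ + 1)).filter (fun n : ℕ => t < (n : ℝ) ∧ (n : ℝ) < t + ℓ ∧
    n ≡ a [MOD q] ∧ p n)

/-- The final theorem: every progression, every `c > 0`, both parities, with a count. -/
def FinalA : Prop := ∀ (q a : ℕ) (c : ℝ), 1 ≤ q → 0 < c → ∃ t0 : ℝ, ∀ t : ℝ, t0 ≤ t →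
  √t / (Real.log t) ^ (7 / 5 : ℝ) ≤
    ((prog q a t (c * √t) (fun n => Even (ArithmeticFunction.cardFactors n))).card : ℝ) ∧
  √t / (Real.log t) ^ (7 / 5 : ℝ) ≤
    ((prog q a t (c * √t) (fun n => Odd (ArithmeticFunction.cardFactors n))).card : ℝ)

end Pool.Agent.MRAP
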