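import Pool.Agent.Lib.MRZ.Touch75

/-! TANK MR, AP lift (helper42, row A4; helper1): the pair count with a constant `K`. -/

set_option autoImplicit false

namespace Pool.Agent.MRZ

open Finset

/-- The balanced factorizations `N = u v`, `a1 √t ≤ u ≤ a2 √t`, of the members of a set of at most
`K √t / (log t)^{7/5}` integers of `(t, t + c √t)` number at most `ε √t`. -/
theorem touch_pairs75K (H : Typ) {c a1 a2 ε K : ℝ} (hc : 0 < c) (h1 : 0 < a1) (h2 : 0 < a2)
    (hε : 0 < ε) (hK : 0 < K) :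
    ∃ t0 : ℝ, ∀ t : ℝ, t0 ≤ t → ∀ E : Finset ℕ,
      (∀ N ∈ E, t < (N : ℝ) ∧ (N : ℝ) < t + c * √t) →
      (E.card : ℝ) ≤ K * √t / (Real.log t) ^ (7 / 5 : ℝ) →
      ((∑ N ∈ E, (N.divisors.filter
        (fun u : ℕ => a1 * √t ≤ (u : ℝ) ∧ (u : ℝ) ≤ a2 * √t)).card : ℕ) : ℝ) ≤ ε * √t := by
  set θ : ℝ := (1 + 1 / 200) * Real.log 2 with hθ
  have hκ : 0 < 7 / 5 - 2 * θ := by
    have := Real.log_two_lt_d9
    rw [hθ]
    linarith
  obtain ⟨t1, ht1⟩ := count_big_div H h2 (by norm_num : (0 : ℝ) < 1 / 200)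
    (by positivity : 0 < ε / (3 * (c / a1 + 1)))
  obtain ⟨t2, ht2⟩ := count_big_div H (by positivity : 0 < 2 / a1) (by norm_num : (0 : ℝ) < 1 / 200)
    (by positivity : 0 < ε / (3 * (c / (1 / a2) + 1)))
  have htend : Filter.Tendsto (fun t : ℝ => (Real.log t) ^ (-(7 / 5 - 2 * θ))) Filter.atTop
      (nhds 0) := (tendsto_rpow_neg_atTop hκ).comp Real.tendsto_log_atTop
  have hev := htend.eventually (Iic_mem_nhds (by positivity : (0 : ℝ) < ε / (3 * K)))
  obtain ⟨t3, ht3⟩ := Filter.eventually_atTop.1 hev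
  refine ⟨max (max 3 (c ^ 2)) (max (max t1 t2) t3), ?_⟩
  intro t ht E hE hcard
  have h3 : 3 ≤ t := ((le_max_left _ _).trans (le_max_left _ _)).trans ht
  have h4 : c ^ 2 ≤ t := ((le_max_right _ _).trans (le_max_left _ _)).trans ht
  have h5 : t1 ≤ t := ((le_max_left _ _).trans ((le_max_left _ _).trans (le_max_right _ _))).trans ht
  have h6 : t2 ≤ t := ((le_max_right _ _).trans ((le_max_left _ _).trans (le_max_right _ _))).trans ht
  have h7 : t3 ≤ t := ((le_max_right _ _).trans (le_max_right _ _)).trans ht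
  have hst : 0 < √t := Real.sqrt_pos.2 (by linarith)
  have hcs : c ≤ √t := by
    rw [← Real.sqrt_sq hc.le]
    exact Real.sqrt_le_sqrt h4
  have hL : 0 < Real.log t := Real.log_pos (by linarith)
  have hcore := touch_core (a1 := a1) (a2 := a2) hc h1 h2 (by linarith : (1 : ℝ) ≤ t) hcs E hE
    (Z := (Real.log t) ^ θ) (Real.rpow_nonneg hL.le _)
  refine hcore.trans ?_
  have hA := ht1 t h5
  have hB := ht2 t h6
  have hC := ht3 t h7
  rw [← hθ] at hA hB
  have hZ2 : ((Real.log t) ^ θ) ^ 2 = (Real.log t) ^ (2 * θ) := by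
    rw [← Real.rpow_natCast, ← Real.rpow_mul hL.le]
    congr 1
    push_cast
    ring
  have hfirst : (E.card : ℝ) * ((Real.log t) ^ θ) ^ 2 ≤ ε / 3 * √t := by
    rw [hZ2]
    calc (E.card : ℝ) * (Real.log t) ^ (2 * θ)
        ≤ K * √t / (Real.log t) ^ (7 / 5 : ℝ) * (Real.log t) ^ (2 * θ) :=
          mul_le_mul_of_nonneg_right hcard (Real.rpow_nonneg hL.le _)
      _ = (Real.log t) ^ (-(7 / 5 - 2 * θ)) * (K * √t) := by
          have : (Real.log t) ^ (-(7 / 5 - 2 * θ)) =
              (Real.log t) ^ (2 * θ) / (Real.log t) ^ (7 / 5 : ℝ) := by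
            rw [← Real.rpow_sub hL]
            congr 1
            ring
          rw [this]
          ring
      _ ≤ ε / (3 * K) * (K * √t) := mul_le_mul_of_nonneg_right hC (by positivity)
      _ = ε / 3 * √t := by field_simp
  have hA' : (c / a1 + 1) * (((Icc 1 ⌊a2 * √t⌋₊).filter
        (fun u => (Real.log t) ^ θ < (u.divisors.card : ℝ))).card : ℝ) ≤ ε / 3 * √t := by
    refine (mul_le_mul_of_nonneg_left hA (by positivity)).trans (le_of_eq ?_)
    field_simp
  have hB' : (c / (1 / a2) + 1) * (((Icc 1 ⌊2 / a1 * √t⌋₊).filter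
        (fun u => (Real.log t) ^ θ < (u.divisors.card : ℝ))).card : ℝ) ≤ ε / 3 * √t := by
    refine (mul_le_mul_of_nonneg_left hB (by positivity)).trans (le_of_eq ?_)
    have : c / (1 / a2) + 1 ≠ 0 := by positivity
    generalize c / (1 / a2) + 1 = q at this
    field_simp
  linarith

end Pool.Agent.MRZ
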