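import Pool.Agent.Lib.MRAP.Stat
import Pool.Agent.Lib.MRAP.TouchK

/-! TANK MR, the lift to arithmetic progressions, row A5 (helper14): from `EndA` and the pair
count to `FinalA`; the reduction to coprime residue classes. -/

set_option autoImplicit false

namespace Pool.Agent.MRAP

open Finset Pool.Agent.MRL Pool.Agent.MRZ

theorem mem_prog {q a : ℕ} {t ℓ : ℝ} {p : ℕ → Prop} {n : ℕ} :
    n ∈ prog q a t ℓ p ↔ t < (n : ℝ) ∧ (n : ℝ) < t + ℓ ∧ n ≡ a [MOD q] ∧ p n := by
  classical
  unfold prog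
  rw [mem_filter, mem_range]
  constructor
  · exact fun h => h.2
  · intro h
    refine ⟨?_, h⟩
    have : n ≤ ⌊t + ℓ⌋₊ := Nat.le_floor h.2.1.le
    omega

/-- `lam` is constant outside of one parity class. -/
theorem constOffA_prog {q a : ℕ} {t ℓ : ℝ} {p : ℕ → Prop} {σ : ℝ}
    (hp : ∀ n, ¬ p n → lam n = σ) : ConstOffA q a (prog q a t ℓ p) t ℓ := by
  have key : ∀ k : ℕ, t < k → (k : ℝ) < t + ℓ → k ≡ a [MOD q] → k ∉ prog q a t ℓ p →
      lam k = σ := by
    intro k h1 h2 h3 h4
    apply hp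
    intro h
    exact h4 (mem_prog.2 ⟨h1, h2, h3, h⟩)
  intro m n h1 h2 h3 h4 h5 h6 h7 h8
  rw [key m h1 h2 h3 h4, key n h5 h6 h7 h8]

theorem lam_of_not_even {n : ℕ} (h : ¬ Even (ArithmeticFunction.cardFactors n)) : lam n = -1 := by
  unfold lam
  exact Odd.neg_one_pow (Nat.not_even_iff_odd.1 h)

theorem lam_of_not_odd {n : ℕ} (h : ¬ Odd (ArithmeticFunction.cardFactors n)) : lam n = 1 := by
  unfold lam
  exact Even.neg_one_pow (Nat.not_odd_iff_even.1 h)

/-- One parity, coprime residue class, with a constant. -/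
theorem count_cop (hE : EndA) (hT : Typ) {q a : ℕ} {c K : ℝ} (hq : 1 ≤ q) (ha : a.Coprime q)
    (hc : 0 < c) (hK : 0 < K) :
    ∃ t0 : ℝ, ∀ t : ℝ, t0 ≤ t → ∀ (p : ℕ → Prop) (σ : ℝ), (∀ n, ¬ p n → lam n = σ) →
      K * √t / (Real.log t) ^ (7 / 5 : ℝ) ≤ ((prog q a t (c * √t) p).card : ℝ) := by
  obtain ⟨a1, a2, η, h1, h2, hη, t0, H0⟩ := hE q a c hq ha hc
  obtain ⟨t1, H1⟩ := touch_pairs75K hT hc h1 h2 hη hK
  refine ⟨max t0 t1, fun t ht p σ hp => ?_⟩
  have ht0 : t0 ≤ t := (le_max_left _ _).trans ht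
  have ht1 : t1 ≤ t := (le_max_right _ _).trans ht
  by_contra hcon
  push Not at hcon
  have h3 := H1 t ht1 (prog q a t (c * √t) p)
    (fun N hN => ⟨(mem_prog.1 hN).1, (mem_prog.1 hN).2.1⟩) hcon.le
  push_cast at h3
  exact H0 t ht0 _ h3 (constOffA_prog hp)

/-- Multiplication by `e` maps a progression into a progression. -/
theorem card_prog_mul {e q a : ℕ} {t ℓ : ℝ} (he : 1 ≤ e) {p p' : ℕ → Prop}
    (hp : ∀ n : ℕ, t / e < (n : ℝ) → p' n → p (e * n)) :
    (prog q a (t / e) (ℓ / e) p').card ≤ (prog (e * q) (e * a) t ℓ p).card := by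
  have he0 : (0 : ℝ) < e := by exact_mod_cast he
  have hsub : (prog q a (t / e) (ℓ / e) p').image (fun n => e * n) ⊆
      prog (e * q) (e * a) t ℓ p := by
    intro m hm
    rw [Finset.mem_image] at hm
    obtain ⟨n, hn, rfl⟩ := hm
    rw [mem_prog] at hn ⊢
    obtain ⟨h1, h2, h3, h4⟩ := hn
    push_cast
    refine ⟨?_, ?_, ?_, hp n h1 h4⟩
    · rw [div_lt_iff₀ he0] at h1
      linarith
    · rw [← add_div, lt_div_iff₀ he0] at h2
      linarith
    · exact Nat.ModEq.mul_left' e h3
  calc (prog q a (t / e) (ℓ / e) p').card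
      = ((prog q a (t / e) (ℓ / e) p').image (fun n => e * n)).card := by
        rw [Finset.card_image_of_injective]
        intro x y hxy
        exact Nat.eq_of_mul_eq_mul_left he hxy
    _ ≤ _ := Finset.card_le_card hsub

/-- **Row A5.** Every residue class, both parities, with a count. -/
theorem finalA (hE : EndA) (hT : Typ) : FinalA := by
  intro q a c hq hc
  -- the reduction to a coprime class
  set e := Nat.gcd a q with he
  have hq0 : 0 < q := hq
  have he0 : 0 < e := Nat.gcd_pos_of_pos_right a hq0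
  obtain ⟨a', ha'⟩ : e ∣ a := Nat.gcd_dvd_left a q
  obtain ⟨q', hq'⟩ : e ∣ q := Nat.gcd_dvd_right a q
  have hcop : a'.Coprime q' := by
    have h1 := Nat.coprime_div_gcd_div_gcd (m := a) (n := q) he0
    rw [← he] at h1
    have h2 : a / e = a' := by
      rw [ha']; exact Nat.mul_div_cancel_left a' he0
    have h3 : q / e = q' := by
      rw [hq']; exact Nat.mul_div_cancel_left q' he0
    rwa [h2, h3] at h1
  have hq1 : 1 ≤ q' := by
    rcases Nat.eq_zero_or_pos q' with h | h
    · rw [h, Nat.mul_zero] at hq'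
      omega
    · exact h
  have heR : (0 : ℝ) < e := by exact_mod_cast he0
  have hse : 0 < √(e : ℝ) := Real.sqrt_pos.2 heR
  obtain ⟨t0, H0⟩ := count_cop hE hT (c := c / √(e : ℝ)) (K := √(e : ℝ)) hq1 hcop
    (by positivity) hse
  refine ⟨max (e * t0) (3 * e), fun t ht => ?_⟩
  have ht0 : e * t0 ≤ t := (le_max_left _ _).trans ht
  have ht1 : 3 * e ≤ t := (le_max_right _ _).trans ht
  have h1e : (1 : ℝ) ≤ e := by exact_mod_cast he0
  have htpos : 0 < t := by linarith
  have ht2 : t0 ≤ t / e := by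
    rw [le_div_iff₀ heR]
    linarith
  have ht3 : 3 ≤ t / e := by
    rw [le_div_iff₀ heR]
    exact ht1
  have hsq : √(t / e) = √t / √(e : ℝ) := Real.sqrt_div htpos.le _
  have hlen : c / √(e : ℝ) * √(t / e) = c * √t / e := by
    rw [hsq]
    have : √(e : ℝ) * √(e : ℝ) = e := Real.mul_self_sqrt heR.le
    rw [div_mul_div_comm, this]
  have hlow : √t / (Real.log t) ^ (7 / 5 : ℝ) ≤
      √(e : ℝ) * √(t / e) / (Real.log (t / e)) ^ (7 / 5 : ℝ) := by
    have h1 : √(e : ℝ) * √(t / e) = √t := by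
      rw [hsq]
      field_simp
    rw [h1]
    have hL : 0 < Real.log (t / e) := Real.log_pos (by linarith)
    have hLL : Real.log (t / e) ≤ Real.log t := by
      apply Real.log_le_log (by linarith)
      exact div_le_self htpos.le h1e
    apply div_le_div_of_nonneg_left (Real.sqrt_nonneg t) (Real.rpow_pos_of_pos hL _)
    exact Real.rpow_le_rpow hL.le hLL (by norm_num)
  have hmul : ∀ n : ℕ, t / e < (n : ℝ) → ArithmeticFunction.cardFactors (e * n) =
      ArithmeticFunction.cardFactors e + ArithmeticFunction.cardFactors n := by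
    intro n hn
    have hn0 : n ≠ 0 := by
      rintro rfl
      push_cast at hn
      linarith
    exact ArithmeticFunction.cardFactors_mul he0.ne' hn0
  have step : ∀ (p p' : ℕ → Prop) (σ : ℝ), (∀ n, ¬ p' n → lam n = σ) →
      (∀ n : ℕ, t / e < (n : ℝ) → p' n → p (e * n)) →
      √t / (Real.log t) ^ (7 / 5 : ℝ) ≤ ((prog q a t (c * √t) p).card : ℝ) := by
    intro p p' σ hp' hp
    have h1 := H0 (t / e) ht2 p' σ hp'
    rw [hlen] at h1
    have h2 := card_prog_mul (q := q') (a := a') (ℓ := c * √t) he0 hp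
    rw [← ha', ← hq'] at h2
    have h3 : ((prog q' a' (t / e) (c * √t / e) p').card : ℝ) ≤
        ((prog q a t (c * √t) p).card : ℝ) := by exact_mod_cast h2
    exact (hlow.trans h1).trans h3
  rcases Nat.even_or_odd (ArithmeticFunction.cardFactors e) with hev | hod
  · constructor
    · refine step _ (fun n => Even (ArithmeticFunction.cardFactors n)) (-1)
        (fun n h => lam_of_not_even h) fun n hn h => ?_
      rw [hmul n hn]
      exact hev.add h
    · refine step _ (fun n => Odd (ArithmeticFunction.cardFactors n)) 1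
        (fun n h => lam_of_not_odd h) fun n hn h => ?_
      rw [hmul n hn]
      exact hev.add_odd h
  · constructor
    · refine step _ (fun n => Odd (ArithmeticFunction.cardFactors n)) 1
        (fun n h => lam_of_not_odd h) fun n hn h => ?_
      rw [hmul n hn]
      exact hod.add_odd h
    · refine step _ (fun n => Even (ArithmeticFunction.cardFactors n)) (-1)
        (fun n h => lam_of_not_even h) fun n hn h => ?_
      rw [hmul n hn]
      exact hod.add_even h

end Pool.Agent.MRAP
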