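import Pool.Agent.Lib.MRAP.FinalA
import Pool.Agent.Lib.MRQ.Touch70

/-! TANK MR, the lift to arithmetic progressions (helper14): the count `√t / (log t)^{7/10}`,
larger than the expected number `√t / log t` of primes. -/

set_option autoImplicit false

namespace Pool.Agent.MRAP

open Finset Pool.Agent.MRL Pool.Agent.MRZ

/-- The final theorem: every progression, every `c > 0`, both parities, with a count of more than
`√t / log t`. -/
def FinalA70 : Prop := ∀ (q a : ℕ) (c : ℝ), 1 ≤ q → 0 < c → ∃ t0 : ℝ, ∀ t : ℝ, t0 ≤ t →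
  √t / (Real.log t) ^ (7 / 10 : ℝ) ≤
    ((prog q a t (c * √t) (fun n => Even (ArithmeticFunction.cardFactors n))).card : ℝ) ∧
  √t / (Real.log t) ^ (7 / 10 : ℝ) ≤
    ((prog q a t (c * √t) (fun n => Odd (ArithmeticFunction.cardFactors n))).card : ℝ)

/-- One parity, coprime residue class, with a constant. -/
theorem count_cop70 (hE : EndA) (hT : Typ) {q a : ℕ} {c K : ℝ} (hq : 1 ≤ q) (ha : a.Coprime q)
    (hc : 0 < c) (hK : 0 < K) :
    ∃ t0 : ℝ, ∀ t : ℝ, t0 ≤ t → ∀ (p : ℕ → Prop) (σ : ℝ), (∀ n, ¬ p n → lam n = σ) →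
      K * √t / (Real.log t) ^ (7 / 10 : ℝ) ≤ ((prog q a t (c * √t) p).card : ℝ) := by
  obtain ⟨a1, a2, η, h1, h2, hη, t0, H0⟩ := hE q a c hq ha hc
  obtain ⟨t1, H1⟩ := Pool.Agent.MRQ.touch_pairs70K hT hc h1 h2 hη hK
  refine ⟨max t0 t1, fun t ht p σ hp => ?_⟩
  have ht0 : t0 ≤ t := (le_max_left _ _).trans ht
  have ht1 : t1 ≤ t := (le_max_right _ _).trans ht
  by_contra hcon
  push Not at hcon
  have h3 := H1 t ht1 (prog q a t (c * √t) p)
    (fun N hN => ⟨(mem_prog.1 hN).1, (mem_prog.1 hN).2.1⟩) hcon.le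
  push_cast at h3
  exact H0 t ht0 _ h3 (constOffA_prog hp)

/-- Every residue class, both parities, with the count `√t / (log t)^{7/10}`. -/
theorem finalA70 (hE : EndA) (hT : Typ) : FinalA70 := by
  intro q a c hq hc
  -- the reduction to a coprime class
  set e := Nat.gcd a q with he
  have hq0 : 0 < q := hq
  have he0 : 0 < e := Nat.gcd_pos_of_pos_right a hq0
  obtain ⟨a', ha'⟩ : e ∣ a := Nat.gcd_dvd_left a q
  obtain ⟨q', hq'⟩ : e ∣ q := Nat.gcd_dvd_right a q
  have hcop : a'.Coprime q' := by
    have h1 := Nat.coprime_div_gcd_div_gcd (m := a) (n := q) he0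
    rw [← he] at h1
    have h2 : a / e = a' := by
      rw [ha']; exact Nat.mul_div_cancel_left a' he0
    have h3 : q / e = q' := by
      rw [hq']; exact Nat.mul_div_cancel_left q' he0
    rwa [h2, h3] at h1
  have hq1 : 1 ≤ q' := by
    rcases Nat.eq_zero_or_pos q' with h | h
    · rw [h, Nat.mul_zero] at hq'
      omega
    · exact h
  have heR : (0 : ℝ) < e := by exact_mod_cast he0
  have hse : 0 < √(e : ℝ) := Real.sqrt_pos.2 heR
  obtain ⟨t0, H0⟩ := count_cop70 hE hT (c := c / √(e : ℝ)) (K := √(e : ℝ)) hq1 hcop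
    (by positivity) hse
  refine ⟨max (e * t0) (3 * e), fun t ht => ?_⟩
  have ht0 : e * t0 ≤ t := (le_max_left _ _).trans ht
  have ht1 : 3 * e ≤ t := (le_max_right _ _).trans ht
  have h1e : (1 : ℝ) ≤ e := by exact_mod_cast he0
  have htpos : 0 < t := by linarith
  have ht2 : t0 ≤ t / e := by
    rw [le_div_iff₀ heR]
    linarith
  have ht3 : 3 ≤ t / e := by
    rw [le_div_iff₀ heR]
    exact ht1
  have hsq : √(t / e) = √t / √(e : ℝ) := Real.sqrt_div htpos.le _
  have hlen : c / √(e : ℝ) * √(t / e) = c * √t / e := by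
    rw [hsq]
    have : √(e : ℝ) * √(e : ℝ) = e := Real.mul_self_sqrt heR.le
    rw [div_mul_div_comm, this]
  have hlow : √t / (Real.log t) ^ (7 / 10 : ℝ) ≤
      √(e : ℝ) * √(t / e) / (Real.log (t / e)) ^ (7 / 10 : ℝ) := by
    have h1 : √(e : ℝ) * √(t / e) = √t := by
      rw [hsq]
      field_simp
    rw [h1]
    have hL : 0 < Real.log (t / e) := Real.log_pos (by linarith)
    have hLL : Real.log (t / e) ≤ Real.log t := by
      apply Real.log_le_log (by linarith)
      exact div_le_self htpos.le h1e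
    apply div_le_div_of_nonneg_left (Real.sqrt_nonneg t) (Real.rpow_pos_of_pos hL _)
    exact Real.rpow_le_rpow hL.le hLL (by norm_num)
  have hmul : ∀ n : ℕ, t / e < (n : ℝ) → ArithmeticFunction.cardFactors (e * n) =
      ArithmeticFunction.cardFactors e + ArithmeticFunction.cardFactors n := by
    intro n hn
    have hn0 : n ≠ 0 := by
      rintro rfl
      push_cast at hn
      linarith
    exact ArithmeticFunction.cardFactors_mul he0.ne' hn0
  have step : ∀ (p p' : ℕ → Prop) (σ : ℝ), (∀ n, ¬ p' n → lam n = σ) →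
      (∀ n : ℕ, t / e < (n : ℝ) → p' n → p (e * n)) →
      √t / (Real.log t) ^ (7 / 10 : ℝ) ≤ ((prog q a t (c * √t) p).card : ℝ) := by
    intro p p' σ hp' hp
    have h1 := H0 (t / e) ht2 p' σ hp'
    rw [hlen] at h1
    have h2 := card_prog_mul (q := q') (a := a') (ℓ := c * √t) he0 hp
    rw [← ha', ← hq'] at h2
    have h3 : ((prog q' a' (t / e) (c * √t / e) p').card : ℝ) ≤
        ((prog q a t (c * √t) p).card : ℝ) := by exact_mod_cast h2
    exact (hlow.trans h1).trans h3
  rcases Nat.even_or_odd (ArithmeticFunction.cardFactors e) with hev | hod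
  · constructor
    · refine step _ (fun n => Even (ArithmeticFunction.cardFactors n)) (-1)
        (fun n h => lam_of_not_even h) fun n hn h => ?_
      rw [hmul n hn]
      exact hev.add h
    · refine step _ (fun n => Odd (ArithmeticFunction.cardFactors n)) 1
        (fun n h => lam_of_not_odd h) fun n hn h => ?_
      rw [hmul n hn]
      exact hev.add_odd h
  · constructor
    · refine step _ (fun n => Odd (ArithmeticFunction.cardFactors n)) 1
        (fun n h => lam_of_not_odd h) fun n hn h => ?_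
      rw [hmul n hn]
      exact hod.add_odd h
    · refine step _ (fun n => Even (ArithmeticFunction.cardFactors n)) (-1)
        (fun n h => lam_of_not_even h) fun n hn h => ?_
      rw [hmul n hn]
      exact hod.add_even h

end Pool.Agent.MRAP
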