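import Pool.Agent.Lib.MRAP.Stat

set_option autoImplicit false

namespace Pool.Agent.MRAP

open Finset Pool.Agent.MRL

theorem card_prog_eq (q a : ℕ) (t ℓ : ℝ) (p : ℕ → Prop) :
    (prog q a t ℓ p).card = {n : ℕ | t < (n : ℝ) ∧ (n : ℝ) < t + ℓ ∧ n ≡ a [MOD q] ∧ p n}.ncard := by
  classical
  rw [← Set.ncard_coe_finset]
  congr 1
  ext n
  simp only [prog, Finset.coe_filter, Finset.mem_range, Set.mem_ofPred_eq]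
  constructor
  · rintro ⟨_, h⟩
    exact h
  · intro h
    refine ⟨?_, h⟩
    have h1 : (n : ℝ) ≤ t + ℓ := h.2.1.le
    exact Nat.lt_succ_of_le (Nat.le_floor h1)

/-- The natural form: for all residues `a mod q` and `c > 0`. -/
theorem result_of (H : FinalA) (q a : ℕ) (c : ℝ) (hq : 1 ≤ q) (hc : 0 < c) :
    ∃ t₀ : ℝ, ∀ t : ℝ, t₀ ≤ t →
      √t / Real.log t ^ (7 / 5 : ℝ) ≤ (({n : ℕ | t < n ∧ (n : ℝ) < t + c * √t ∧ n ≡ a [MOD q] ∧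
        Even (ArithmeticFunction.cardFactors n)}.ncard : ℕ) : ℝ) ∧
      √t / Real.log t ^ (7 / 5 : ℝ) ≤ (({n : ℕ | t < n ∧ (n : ℝ) < t + c * √t ∧ n ≡ a [MOD q] ∧
        Odd (ArithmeticFunction.cardFactors n)}.ncard : ℕ) : ℝ) := by
  obtain ⟨t₀, h⟩ := H q a c hq hc
  refine ⟨t₀, fun t ht => ?_⟩
  obtain ⟨h1, h2⟩ := h t ht
  rw [card_prog_eq] at h1 h2
  exact ⟨h1, h2⟩

/-- Oppermann's intervals: in both intervals, in every residue class, both parities. -/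
theorem opp_of (H : FinalA) (q a : ℕ) (hq : 1 ≤ q) : ∃ x₀ : ℕ, ∀ x : ℕ, x₀ ≤ x →
    (∃ n, x ^ 2 - x < n ∧ n < x ^ 2 ∧ n ≡ a [MOD q] ∧ Even (ArithmeticFunction.cardFactors n)) ∧
    (∃ n, x ^ 2 - x < n ∧ n < x ^ 2 ∧ n ≡ a [MOD q] ∧ Odd (ArithmeticFunction.cardFactors n)) ∧
    (∃ n, x ^ 2 < n ∧ n < x ^ 2 + x ∧ n ≡ a [MOD q] ∧ Even (ArithmeticFunction.cardFactors n)) ∧
    (∃ n, x ^ 2 < n ∧ n < x ^ 2 + x ∧ n ≡ a [MOD q] ∧ Odd (ArithmeticFunction.cardFactors n)) := by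
  obtain ⟨t₀, h⟩ := result_of H q a 1 hq one_pos
  refine ⟨⌈max t₀ 2⌉₊ + 2, fun x hx => ?_⟩
  have hx1 : max t₀ 2 ≤ (x : ℝ) := by
    have h1 := Nat.le_ceil (max t₀ 2)
    have h2 : ((⌈max t₀ 2⌉₊ + 2 : ℕ) : ℝ) ≤ (x : ℝ) := by exact_mod_cast hx
    push_cast at h2
    linarith
  have hx2 : (2 : ℝ) ≤ x := (le_max_right _ _).trans hx1
  have hxt : t₀ ≤ (x : ℝ) := (le_max_left _ _).trans hx1
  have hxn : 2 ≤ x := by exact_mod_cast hx2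
  have pos : ∀ t : ℝ, 2 ≤ t → ∀ S : Set ℕ, √t / Real.log t ^ (7 / 5 : ℝ) ≤ ((S.ncard : ℕ) : ℝ) →
      ∃ n, n ∈ S := by
    intro t ht S hS
    have h1 : 0 < √t / Real.log t ^ (7 / 5 : ℝ) := by
      have : 0 < Real.log t := Real.log_pos (by linarith)
      have : 0 < √t := Real.sqrt_pos.2 (by linarith)
      positivity
    have h2 : (0 : ℝ) < ((S.ncard : ℕ) : ℝ) := h1.trans_le hS
    have h3 : 0 < S.ncard := by exact_mod_cast h2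
    exact Set.nonempty_of_ncard_ne_zero h3.ne'
  have hs : x ≤ x ^ 2 := by nlinarith
  -- the two starting points
  have hA : (2 : ℝ) ≤ ((x ^ 2 - x : ℕ) : ℝ) ∧ t₀ ≤ ((x ^ 2 - x : ℕ) : ℝ) ∧ √((x ^ 2 - x : ℕ) : ℝ) ≤ x := by
    rw [Nat.cast_sub hs]
    push_cast
    refine ⟨by nlinarith, by nlinarith, ?_⟩
    rw [Real.sqrt_le_left (by linarith)]
    nlinarith
  have hB : (2 : ℝ) ≤ ((x ^ 2 : ℕ) : ℝ) ∧ t₀ ≤ ((x ^ 2 : ℕ) : ℝ) ∧ √((x ^ 2 : ℕ) : ℝ) = x := by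
    push_cast
    refine ⟨by nlinarith, by nlinarith, ?_⟩
    rw [Real.sqrt_sq (by linarith)]
  obtain ⟨a1, a2⟩ := h _ hA.2.1
  obtain ⟨b1, b2⟩ := h _ hB.2.1
  have key1 : ∀ (P : ℕ → Prop), (∃ n, n ∈ {n : ℕ | ((x ^ 2 - x : ℕ) : ℝ) < n ∧
      (n : ℝ) < ((x ^ 2 - x : ℕ) : ℝ) + 1 * √((x ^ 2 - x : ℕ) : ℝ) ∧ n ≡ a [MOD q] ∧ P n}) →
      ∃ n, x ^ 2 - x < n ∧ n < x ^ 2 ∧ n ≡ a [MOD q] ∧ P n := by
    rintro P ⟨n, h1, h2, h3, h4⟩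
    refine ⟨n, by exact_mod_cast h1, ?_, h3, h4⟩
    have h5 : (n : ℝ) < ((x ^ 2 : ℕ) : ℝ) := by
      have h6 : ((x ^ 2 - x : ℕ) : ℝ) + x = ((x ^ 2 : ℕ) : ℝ) := by
        rw [Nat.cast_sub hs]; ring
      have h7 := hA.2.2
      linarith
    exact_mod_cast h5
  have key2 : ∀ (P : ℕ → Prop), (∃ n, n ∈ {n : ℕ | ((x ^ 2 : ℕ) : ℝ) < n ∧
      (n : ℝ) < ((x ^ 2 : ℕ) : ℝ) + 1 * √((x ^ 2 : ℕ) : ℝ) ∧ n ≡ a [MOD q] ∧ P n}) →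
      ∃ n, x ^ 2 < n ∧ n < x ^ 2 + x ∧ n ≡ a [MOD q] ∧ P n := by
    rintro P ⟨n, h1, h2, h3, h4⟩
    refine ⟨n, by exact_mod_cast h1, ?_, h3, h4⟩
    have h5 : (n : ℝ) < ((x ^ 2 + x : ℕ) : ℝ) := by
      have h7 := hB.2.2
      push_cast at h7 h2 ⊢
      rw [h7] at h2
      linarith
    exact_mod_cast h5
  exact ⟨key1 _ (pos _ hA.1 _ a1), key1 _ (pos _ hA.1 _ a2), key2 _ (pos _ hB.1 _ b1),
    key2 _ (pos _ hB.1 _ b2)⟩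

end Pool.Agent.MRAP
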