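import Pool.Agent.Lib.MRL.NR
import Pool.Agent.Lib.MRF.Defs
import Pool.Agent.Lib.MRAP.Stat

/-!
# Matomäki–Radziwiłł for `λ χ` (all `χ` mod `q`) implies `NoRunsA`

The coefficients `≡ a mod q` are handled by the orthogonality of the Dirichlet characters.
-/

set_option autoImplicit false

namespace Pool.Agent.MRAP.NR

open Finset MeasureTheory Pool.Agent.MRL Pool.Agent.MRL.NR Pool.Agent.MRF

/-- the coefficients `f(n)/n` -/
noncomputable def lbF (f : ℕ → ℂ) (n : ℕ) : ℂ := ((1 / (n : ℝ) : ℝ) : ℂ) * f n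

theorem AF_eq (f : ℕ → ℂ) (Y t : ℝ) :
    AF f Y t = ∑ n ∈ Ioc ⌊Y⌋₊ ⌊2 * Y⌋₊, lbF f n * MRL.nt n t := rfl

theorem tpF_eq (f : ℕ → ℂ) (s : Finset ℕ) (t : ℝ) :
    tp s (fun n => -Real.log n) (lbF f) t = ∑ n ∈ s, lbF f n * MRL.nt n t := by
  unfold tp
  exact Finset.sum_congr rfl fun n _ => by rw [nt_eq]

theorem tpF_split (f : ℕ → ℂ) {X : ℝ} (hX : 0 ≤ X) (t : ℝ) :
    tp (Ioc ⌊X / 4⌋₊ ⌊4 * X⌋₊) (fun n => -Real.log n) (lbF f) t =
      AF f (X / 4) t + AF f (X / 2) t + AF f X t + AF f (2 * X) t := by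
  rw [tpF_eq, AF_eq, AF_eq, AF_eq, AF_eq]
  have h1 : 2 * (X / 4) = X / 2 := by ring
  have h2 : 2 * (X / 2) = X := by ring
  have h3 : 2 * (2 * X) = 4 * X := by ring
  rw [h1, h2, h3]
  have e1 : ⌊X / 4⌋₊ ≤ ⌊X / 2⌋₊ := Nat.floor_mono (by linarith)
  have e2 : ⌊X / 2⌋₊ ≤ ⌊X⌋₊ := Nat.floor_mono (by linarith)
  have e3 : ⌊X⌋₊ ≤ ⌊2 * X⌋₊ := Nat.floor_mono (by linarith)
  have e4 : ⌊2 * X⌋₊ ≤ ⌊4 * X⌋₊ := Nat.floor_mono (by linarith)
  rw [Finset.sum_Ioc_consecutive _ e1 e2, Finset.sum_Ioc_consecutive _ (e1.trans e2) e3,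
    Finset.sum_Ioc_consecutive _ ((e1.trans e2).trans e3) e4]

theorem AF_g_int (f : ℕ → ℂ) (Y : ℝ) {T : ℝ} (hT : 0 < T) :
    Integrable fun t => ‖AF f Y t‖ ^ 2 * g T t := by
  have hg : (fun t => ‖AF f Y t‖ ^ 2 * g T t) =
      fun t => ‖AF f Y t‖ ^ 2 * Real.exp (-(1 / T ^ 2) * t ^ 2) := by
    funext t
    unfold g
    congr 2
    field_simp
  rw [hg]
  have hb : (0 : ℝ) < 1 / T ^ 2 := by positivity
  have hbd : ∀ t, ‖AF f Y t‖ ≤ ∑ n ∈ Ioc ⌊Y⌋₊ ⌊2 * Y⌋₊, ‖lbF f n‖ := by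
    intro t
    rw [AF_eq]
    refine (norm_sum_le _ _).trans (Finset.sum_le_sum fun n _ => ?_)
    rw [norm_mul, nt_norm, mul_one]
  refine ((integrable_exp_neg_mul_sq hb).const_mul
    ((∑ n ∈ Ioc ⌊Y⌋₊ ⌊2 * Y⌋₊, ‖lbF f n‖) ^ 2)).mono' ?_ ?_
  · apply Continuous.aestronglyMeasurable
    have := continuous_AF f Y
    fun_prop
  · refine Filter.Eventually.of_forall fun t => ?_
    rw [Real.norm_of_nonneg (by positivity)]
    refine mul_le_mul_of_nonneg_right ?_ (Real.exp_pos _).le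
    exact pow_le_pow_left₀ (norm_nonneg _) (hbd t) 2

/-- the energy of the Gaussian averages of `f(n)/n` -/
theorem energyF_le {f : ℕ → ℂ} {ε h X0 X : ℝ} (hh : 1 ≤ h)
    (H : ∀ X : ℝ, X0 ≤ X → ∀ T : ℝ, 1 ≤ T → T ≤ X / h → ∫ t : ℝ, ‖AF f X t‖ ^ 2 * g T t ≤ ε)
    (hX0 : 4 * X0 ≤ X) (hX1 : 4 * h ≤ X) (hX : 0 < X) (hε : 0 ≤ ε) :
    ∫ u, ‖es (Ioc ⌊X / 4⌋₊ ⌊4 * X⌋₊) (fun n => Real.log n) (lbF f) (4 * h / X) u‖ ^ 2 ≤
      3 * ε := by
  have hδ : 0 < 4 * h / X := by positivity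
  rw [energy hδ]
  set T : ℝ := 1 / (4 * h / X) with hT
  have hTX : T = X / (4 * h) := by rw [hT]; field_simp
  have hT0 : 0 < T := by rw [hTX]; positivity
  have hT1 : 1 ≤ T := by
    rw [hTX, le_div_iff₀ (by positivity)]
    linarith
  have hk : ∀ Y : ℝ, X / 4 ≤ Y → ∫ t : ℝ, ‖AF f Y t‖ ^ 2 * g T t ≤ ε := by
    intro Y hY
    refine H Y (by linarith) T hT1 ?_
    rw [hTX, show X / (4 * h) = X / 4 / h by field_simp]
    exact div_le_div_of_nonneg_right hY (by linarith)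
  have h1 := hk (X / 4) le_rfl
  have h2 := hk (X / 2) (by linarith)
  have h3 := hk X (by linarith)
  have h4 := hk (2 * X) (by linarith)
  have hpt : ∀ t : ℝ, ‖tp (Ioc ⌊X / 4⌋₊ ⌊4 * X⌋₊) (fun n => -Real.log n) (lbF f) t‖ ^ 2 *
      Real.exp (-(1 / T ^ 2) * t ^ 2) ≤
      4 * (‖AF f (X / 4) t‖ ^ 2 * g T t + ‖AF f (X / 2) t‖ ^ 2 * g T t +
        ‖AF f X t‖ ^ 2 * g T t + ‖AF f (2 * X) t‖ ^ 2 * g T t) := by
    intro t
    have hg : g T t = Real.exp (-(1 / T ^ 2) * t ^ 2) := by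
      unfold g
      congr 1
      field_simp
    rw [tpF_split f hX.le, ← hg]
    have hg0 : 0 ≤ g T t := by unfold g; positivity
    have h5 : ‖AF f (X / 4) t + AF f (X / 2) t + AF f X t + AF f (2 * X) t‖ ≤
        ‖AF f (X / 4) t‖ + ‖AF f (X / 2) t‖ + ‖AF f X t‖ + ‖AF f (2 * X) t‖ := by
      refine (norm_add_le _ _).trans (add_le_add ?_ le_rfl)
      refine (norm_add_le _ _).trans (add_le_add ?_ le_rfl)
      exact norm_add_le _ _
    have h6 : ‖AF f (X / 4) t + AF f (X / 2) t + AF f X t + AF f (2 * X) t‖ ^ 2 ≤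
        4 * (‖AF f (X / 4) t‖ ^ 2 + ‖AF f (X / 2) t‖ ^ 2 + ‖AF f X t‖ ^ 2 +
          ‖AF f (2 * X) t‖ ^ 2) := by
      refine (pow_le_pow_left₀ (norm_nonneg _) h5 2).trans ?_
      nlinarith [sq_nonneg (‖AF f (X / 4) t‖ - ‖AF f (X / 2) t‖),
        sq_nonneg (‖AF f (X / 4) t‖ - ‖AF f X t‖),
        sq_nonneg (‖AF f (X / 4) t‖ - ‖AF f (2 * X) t‖),
        sq_nonneg (‖AF f (X / 2) t‖ - ‖AF f X t‖),
        sq_nonneg (‖AF f (X / 2) t‖ - ‖AF f (2 * X) t‖),
        sq_nonneg (‖AF f X t‖ - ‖AF f (2 * X) t‖)]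
    nlinarith [mul_le_mul_of_nonneg_right h6 hg0]
  have i1 := AF_g_int f (X / 4) hT0
  have i2 := AF_g_int f (X / 2) hT0
  have i3 := AF_g_int f X hT0
  have i4 := AF_g_int f (2 * X) hT0
  have h7 : ∫ t : ℝ, ‖tp (Ioc ⌊X / 4⌋₊ ⌊4 * X⌋₊) (fun n => -Real.log n) (lbF f) t‖ ^ 2 *
      Real.exp (-(1 / T ^ 2) * t ^ 2) ≤ 4 * (4 * ε) := by
    refine (integral_mono_of_nonneg (Filter.Eventually.of_forall fun t => by positivity)
      ((((i1.add i2).add i3).add i4).const_mul 4)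
      (Filter.Eventually.of_forall hpt)).trans ?_
    have h8 : ∫ t : ℝ, 4 * (‖AF f (X / 4) t‖ ^ 2 * g T t + ‖AF f (X / 2) t‖ ^ 2 * g T t +
        ‖AF f X t‖ ^ 2 * g T t + ‖AF f (2 * X) t‖ ^ 2 * g T t) =
        4 * ((∫ t, ‖AF f (X / 4) t‖ ^ 2 * g T t) + (∫ t, ‖AF f (X / 2) t‖ ^ 2 * g T t) +
          (∫ t, ‖AF f X t‖ ^ 2 * g T t) + (∫ t, ‖AF f (2 * X) t‖ ^ 2 * g T t)) := by
      have e1 := integral_add i1 i2
      have e2 := integral_add (i1.add i2) i3
      have e3 := integral_add ((i1.add i2).add i3) i4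
      simp only [Pi.add_apply] at e2 e3
      rw [integral_const_mul, e3, e2, e1]
    exact h8.le.trans (by linarith)
  have hpi : 1 / (2 * Real.pi) ≤ 1 / 6 := by
    apply one_div_le_one_div_of_le (by norm_num)
    have := Real.pi_gt_three
    linarith
  have hpi0 : 0 ≤ 1 / (2 * Real.pi) := by positivity
  calc 1 / (2 * Real.pi) * ∫ t : ℝ,
        ‖tp (Ioc ⌊X / 4⌋₊ ⌊4 * X⌋₊) (fun n => -Real.log n) (lbF f) t‖ ^ 2 *
        Real.exp (-(1 / T ^ 2) * t ^ 2) ≤ 1 / (2 * Real.pi) * (4 * (4 * ε)) :=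
        mul_le_mul_of_nonneg_left h7 hpi0
    _ ≤ 1 / 6 * (4 * (4 * ε)) := mul_le_mul_of_nonneg_right hpi (by positivity)
    _ ≤ 3 * ε := by linarith

/-- the coefficients at the integers `≡ a mod q`. -/
noncomputable def lbA (q a n : ℕ) : ℂ := if n ≡ a [MOD q] then lb n else 0

/-- orthogonality of the characters. -/
theorem lbA_eq {q : ℕ} [NeZero q] {a : ℕ} (ha : a.Coprime q) {n : ℕ} (hn : n ≠ 0) :
    lbA q a n = (1 / (q.totient : ℂ)) *
      ∑ χ : DirichletCharacter ℂ q, χ ((a : ZMod q)⁻¹) * lbF (lamChi χ) n := by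
  have hu : IsUnit (a : ZMod q) := (ZMod.isUnit_iff_coprime a q).2 ha
  have h1 := DirichletCharacter.sum_char_inv_mul_char_eq ℂ hu (n : ZMod q)
  have hφ : (q.totient : ℂ) ≠ 0 := by
    exact_mod_cast (Nat.totient_pos.2 (Nat.pos_of_ne_zero (NeZero.ne q))).ne'
  have h2 : ∑ χ : DirichletCharacter ℂ q, χ ((a : ZMod q)⁻¹) * lbF (lamChi χ) n =
      lb n * ∑ χ : DirichletCharacter ℂ q, χ ((a : ZMod q)⁻¹) * χ (n : ZMod q) := by
    rw [mul_sum]
    refine sum_congr rfl fun χ _ => ?_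
    unfold lbF lamChi lb
    rw [if_neg hn]
    push_cast
    ring
  rw [h2, h1]
  unfold lbA
  by_cases h : n ≡ a [MOD q]
  · rw [if_pos h, if_pos ((ZMod.natCast_eq_natCast_iff _ _ _).2 h).symm]
    field_simp
  · rw [if_neg h, if_neg (fun h' => h ((ZMod.natCast_eq_natCast_iff _ _ _).1 h').symm)]
    ring

theorem esA_eq {q : ℕ} [NeZero q] {a : ℕ} (ha : a.Coprime q) (X δ u : ℝ) :
    es (Ioc ⌊X / 4⌋₊ ⌊4 * X⌋₊) (fun n => Real.log n) (lbA q a) δ u =
      (1 / (q.totient : ℂ)) * ∑ χ : DirichletCharacter ℂ q, χ ((a : ZMod q)⁻¹) *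
        es (Ioc ⌊X / 4⌋₊ ⌊4 * X⌋₊) (fun n => Real.log n) (lbF (lamChi χ)) δ u := by
  unfold es
  have h1 : ∀ n ∈ Ioc ⌊X / 4⌋₊ ⌊4 * X⌋₊, lbA q a n * (gw δ (Real.log n - u) : ℂ) =
      ∑ χ : DirichletCharacter ℂ q, (1 / (q.totient : ℂ)) * (χ ((a : ZMod q)⁻¹) *
        (lbF (lamChi χ) n * (gw δ (Real.log n - u) : ℂ))) := by
    intro n hn
    have hn0 : n ≠ 0 := by
      have := mem_Ioc.1 hn
      omega
    rw [lbA_eq ha hn0, mul_assoc, sum_mul, mul_sum]
    exact sum_congr rfl fun χ _ => by ring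
  rw [sum_congr rfl h1, sum_comm, mul_sum]
  refine sum_congr rfl fun χ _ => ?_
  rw [mul_sum, mul_sum]

/-- the energy of the Gaussian averages over the integers `≡ a mod q`. -/
theorem energyA {q : ℕ} [NeZero q] {a : ℕ} (ha : a.Coprime q) {ε h X0 X : ℝ} (hh : 1 ≤ h)
    (H : ∀ χ : DirichletCharacter ℂ q, ∀ X : ℝ, X0 ≤ X → ∀ T : ℝ, 1 ≤ T → T ≤ X / h →
      ∫ t : ℝ, ‖AF (lamChi χ) X t‖ ^ 2 * g T t ≤ ε)
    (hX0 : 4 * X0 ≤ X) (hX1 : 4 * h ≤ X) (hX : 0 < X) (hε : 0 ≤ ε) :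
    ∫ u, ‖es (Ioc ⌊X / 4⌋₊ ⌊4 * X⌋₊) (fun n => Real.log n) (lbA q a) (4 * h / X) u‖ ^ 2 ≤
      (Fintype.card (DirichletCharacter ℂ q) : ℝ) ^ 2 * (3 * ε) := by
  set δ : ℝ := 4 * h / X with hδd
  have hδ : 0 < δ := by positivity
  set F : DirichletCharacter ℂ q → ℝ → ℝ := fun χ u =>
    ‖es (Ioc ⌊X / 4⌋₊ ⌊4 * X⌋₊) (fun n => Real.log n) (lbF (lamChi χ)) δ u‖ ^ 2 with hF
  have hint : ∀ χ ∈ (univ : Finset (DirichletCharacter ℂ q)), Integrable (F χ) := fun χ _ =>
    es_int hδ (Ioc ⌊X / 4⌋₊ ⌊4 * X⌋₊) (fun n => Real.log n) (lbF (lamChi χ))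
  have hpt : ∀ u, ‖es (Ioc ⌊X / 4⌋₊ ⌊4 * X⌋₊) (fun n => Real.log n) (lbA q a) δ u‖ ^ 2 ≤
      (Fintype.card (DirichletCharacter ℂ q) : ℝ) * ∑ χ : DirichletCharacter ℂ q, F χ u := by
    intro u
    rw [esA_eq ha]
    have hφ : ‖(1 / (q.totient : ℂ))‖ ≤ 1 := by
      rw [norm_div, norm_one, Complex.norm_natCast]
      have : (1 : ℝ) ≤ q.totient := by
        exact_mod_cast Nat.totient_pos.2 (Nat.pos_of_ne_zero (NeZero.ne q))
      exact (div_le_one (by linarith)).2 this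
    have h1 : ‖(1 / (q.totient : ℂ)) * ∑ χ : DirichletCharacter ℂ q, χ ((a : ZMod q)⁻¹) *
        es (Ioc ⌊X / 4⌋₊ ⌊4 * X⌋₊) (fun n => Real.log n) (lbF (lamChi χ)) δ u‖ ≤
        ∑ χ : DirichletCharacter ℂ q,
          ‖es (Ioc ⌊X / 4⌋₊ ⌊4 * X⌋₊) (fun n => Real.log n) (lbF (lamChi χ)) δ u‖ := by
      rw [norm_mul]
      refine (mul_le_of_le_one_left (norm_nonneg _) hφ).trans ?_
      refine (norm_sum_le _ _).trans (sum_le_sum fun χ _ => ?_)
      rw [norm_mul]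
      exact mul_le_of_le_one_left (norm_nonneg _) (χ.norm_le_one _)
    refine (pow_le_pow_left₀ (norm_nonneg _) h1 2).trans ?_
    have h2 := sq_sum_le_card_mul_sum_sq (s := (univ : Finset (DirichletCharacter ℂ q)))
      (f := fun χ => ‖es (Ioc ⌊X / 4⌋₊ ⌊4 * X⌋₊) (fun n => Real.log n) (lbF (lamChi χ)) δ u‖)
    rw [card_univ] at h2
    exact h2
  have hle : ∀ χ ∈ (univ : Finset (DirichletCharacter ℂ q)), ∫ u, F χ u ≤ 3 * ε :=
    fun χ _ => energyF_le hh (H χ) hX0 hX1 hX hε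
  calc ∫ u, ‖es (Ioc ⌊X / 4⌋₊ ⌊4 * X⌋₊) (fun n => Real.log n) (lbA q a) δ u‖ ^ 2
      ≤ ∫ u, (Fintype.card (DirichletCharacter ℂ q) : ℝ) *
          ∑ χ : DirichletCharacter ℂ q, F χ u := by
        refine integral_mono_of_nonneg (Filter.Eventually.of_forall fun u => by positivity) ?_
          (Filter.Eventually.of_forall hpt)
        exact (integrable_finset_sum _ hint).const_mul _
    _ = (Fintype.card (DirichletCharacter ℂ q) : ℝ) *
          ∑ χ : DirichletCharacter ℂ q, ∫ u, F χ u := by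
        rw [integral_const_mul, integral_finset_sum _ hint]
    _ ≤ (Fintype.card (DirichletCharacter ℂ q) : ℝ) *
          ∑ _χ : DirichletCharacter ℂ q, (3 * ε) :=
        mul_le_mul_of_nonneg_left (sum_le_sum hle) (Nat.cast_nonneg _)
    _ = (Fintype.card (DirichletCharacter ℂ q) : ℝ) ^ 2 * (3 * ε) := by
        rw [sum_const, card_univ, nsmul_eq_mul]
        ring

/-- the integers congruent to `a`. -/
theorem prog_sum_ge {F : ℕ → ℝ} (hF : ∀ n, 0 ≤ F n) {q a x m : ℕ} (hq : 1 ≤ q) {s : Finset ℕ}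
    {c : ℝ} (hc : 0 ≤ c)
    (hs : ∀ n, x < n → n ≤ x + m → n ≡ a [MOD q] → n ∈ s ∧ c ≤ F n) :
    (((m : ℝ) - 2 * q) / q) * c ≤ ∑ n ∈ s, F n := by
  set f : ℕ → ℕ := fun k => q * (x / q + 1 + k) + a % q with hf
  have hinj : Set.InjOn f (range (m / q - 1) : Finset ℕ) := by
    intro y _ z _ hyz
    simp only [hf] at hyz
    have h1 : q * (x / q + 1 + y) = q * (x / q + 1 + z) := by omega
    have h2 := Nat.eq_of_mul_eq_mul_left (by omega : 0 < q) h1
    omega
  have hmem : ∀ k ∈ range (m / q - 1), x < f k ∧ f k ≤ x + m ∧ f k ≡ a [MOD q] := by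
    intro k hk
    have hk' := mem_range.1 hk
    have h1 := Nat.div_add_mod x q
    have h2 := Nat.mod_lt x (by omega : 0 < q)
    have h2' := Nat.mod_lt a (by omega : 0 < q)
    have h3 : q * (k + 2) ≤ q * (m / q) := Nat.mul_le_mul_left q (by omega)
    have h4 := Nat.mul_div_le m q
    have e : f k = q * (x / q) + q * (k + 1) + a % q := by
      simp only [hf]
      ring
    have e2 : q * (k + 2) = q * (k + 1) + q := by ring
    have h6 : q * 1 ≤ q * (k + 1) := Nat.mul_le_mul_left q (by omega)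
    refine ⟨by rw [e]; omega, by rw [e]; omega, ?_⟩
    simp only [hf]
    unfold Nat.ModEq
    rw [Nat.mul_add_mod, Nat.mod_mod]
  have h1 : ∑ k ∈ range (m / q - 1), c ≤ ∑ n ∈ image f (range (m / q - 1)), F n := by
    rw [sum_image hinj]
    exact sum_le_sum fun k hk => by
      have h := hmem k hk
      exact (hs _ h.1 h.2.1 h.2.2).2
  have h2 : ∑ n ∈ image f (range (m / q - 1)), F n ≤ ∑ n ∈ s, F n := by
    refine sum_le_sum_of_subset_of_nonneg ?_ fun n _ _ => hF n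
    intro n hn
    obtain ⟨k, hk, rfl⟩ := mem_image.1 hn
    have h := hmem k hk
    exact (hs _ h.1 h.2.1 h.2.2).1
  refine le_trans ?_ (h1.trans h2)
  rw [sum_const, card_range, nsmul_eq_mul]
  apply mul_le_mul_of_nonneg_right _ hc
  have hq0 : (0 : ℝ) < q := by exact_mod_cast hq
  rw [div_le_iff₀ hq0]
  have h3 := Nat.div_add_mod m q
  have h4 := Nat.mod_lt m (by omega : 0 < q)
  have h5 : m ≤ q * (m / q - 1) + 2 * q := by
    rcases Nat.eq_zero_or_pos (m / q) with h | h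
    · rw [h] at h3
      omega
    · have h7 : q * (m / q - 1) + q = q * (m / q) := by
        obtain ⟨z, hz⟩ := Nat.exists_eq_add_of_le h
        rw [hz]
        simp only [Nat.succ_eq_add_one, zero_add, Nat.add_sub_cancel_left]
        ring
      omega
  have h6 : (m : ℝ) ≤ q * ((m / q - 1 : ℕ) : ℝ) + 2 * q := by exact_mod_cast h5
  linarith

/-- lower bound of the Gaussian average in the middle of a run -/
theorem es_lowerA {h X u : ℝ} {x L P a : ℕ} (hP : 1 ≤ P) (hh : 2 * P ≤ h)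
    (hX : 4 * ((L : ℝ) + 4 * h + 4) ≤ X) (hL : 40000 * (P * h) ≤ L) (hx1 : X ≤ x)
    (hx2 : (x : ℝ) ≤ 2 * X)
    (hrun : ∀ i < 2 * L, ∀ j < 2 * L, x + i ≡ a [MOD P] → x + j ≡ a [MOD P] →
      lam (x + i) = lam (x + j))
    (hu1 : ((x + L : ℕ) : ℝ) ≤ Real.exp u) (hu2 : Real.exp u < ((x + L : ℕ) : ℝ) + 1) :
    1 / (60 * (P : ℝ)) ≤
      ‖es (Ioc ⌊X / 4⌋₊ ⌊4 * X⌋₊) (fun n => Real.log n) (lbA P a) (4 * h / X) u‖ := by
  have hP0 : (1 : ℝ) ≤ P := by exact_mod_cast hP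
  have hh1 : 1 ≤ h := by linarith
  have hPh : h ≤ P * h := le_mul_of_one_le_left (by linarith) hP0
  have hL0 : (0 : ℝ) ≤ L := Nat.cast_nonneg _
  have hX0 : 0 < X := by linarith
  push_cast at hu1 hu2
  have hδ : 0 < 4 * h / X := by positivity
  set s : Finset ℕ := Ioc ⌊X / 4⌋₊ ⌊4 * X⌋₊ with hs
  set F : ℕ → ℝ := fun n => 1 / (n : ℝ) * gw (4 * h / X) (Real.log n - u) with hF
  have hF0 : ∀ n, 0 ≤ F n := fun n => by
    simp only [hF]
    exact mul_nonneg (by positivity) (gw_nonneg hδ _)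
  have hsm : ∀ n ∈ s, X / 4 < (n : ℝ) ∧ (n : ℝ) ≤ 4 * X := by
    intro n hn
    rw [hs, Finset.mem_Ioc] at hn
    exact ⟨(Nat.floor_lt (by positivity)).1 hn.1, (Nat.le_floor_iff (by positivity)).1 hn.2⟩
  set sc : Finset ℕ := s.filter (fun n => n ≡ a [MOD P]) with hsc
  have hes : es s (fun n => Real.log n) (lbA P a) (4 * h / X) u
      = ((∑ n ∈ sc, lam n * F n : ℝ) : ℂ) := by
    unfold es
    rw [hsc, sum_filter]
    push_cast
    refine Finset.sum_congr rfl fun n _ => ?_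
    unfold lbA lb
    by_cases hn : n ≡ a [MOD P]
    · rw [if_pos hn, if_pos hn]
      simp only [hF]
      push_cast
      ring
    · rw [if_neg hn, if_neg hn, zero_mul, Complex.ofReal_zero]
  rw [hes, Complex.norm_real, Real.norm_eq_abs]
  -- a member of the run in the progression
  obtain ⟨j0, hj0, hc0⟩ : ∃ j0 < 2 * L, x + j0 ≡ a [MOD P] := by
    have h1 := Nat.div_add_mod x P
    have h2 := Nat.mod_lt x (by omega : 0 < P)
    have h2' := Nat.mod_lt a (by omega : 0 < P)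
    have h3 : P * (x / P + 1) = P * (x / P) + P := by ring
    have h4 : 2 * P < 2 * L := by
      have h5 : 2 * (P : ℝ) < 2 * L := by linarith
      exact_mod_cast h5
    refine ⟨P * (x / P + 1) + a % P - x, by omega, ?_⟩
    have e : x + (P * (x / P + 1) + a % P - x) = P * (x / P + 1) + a % P := by omega
    rw [e]
    unfold Nat.ModEq
    rw [Nat.mul_add_mod, Nat.mod_mod]
  set q : ℝ := lam (x + j0) with hq
  have hlx : |q| = 1 := lam_abs _
  have h1 : q * ∑ n ∈ sc, lam n * F n ≤ |∑ n ∈ sc, lam n * F n| := by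
    refine (le_abs_self _).trans ?_
    rw [abs_mul, hlx, one_mul]
  refine le_trans ?_ h1
  have hlx2 : q * q = 1 := by
    have := congrArg (fun z => z ^ 2) hlx
    simp only [sq_abs] at this
    nlinarith
  -- the run
  set R : ℕ → Prop := fun n => x ≤ n ∧ n < x + 2 * L with hR
  have hrun' : ∀ n, R n → n ≡ a [MOD P] → lam n = q := by
    intro n hn hc
    obtain ⟨j, rfl⟩ := Nat.exists_eq_add_of_le hn.1
    exact hrun j (by have := hn.2; omega) j0 hj0 hc hc0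
  rw [Finset.mul_sum, ← Finset.sum_filter_add_sum_filter_not sc R]
  have hin : ∑ n ∈ sc.filter R, q * (lam n * F n) = ∑ n ∈ sc.filter R, F n := by
    refine Finset.sum_congr rfl fun n hn => ?_
    have hn' := Finset.mem_filter.mp hn
    rw [hrun' n hn'.2 (mem_filter.1 hn'.1).2, ← mul_assoc, hlx2, one_mul]
  have hout : -(∑ n ∈ s.filter (fun n => ¬ R n), F n) ≤
      ∑ n ∈ sc.filter (fun n => ¬ R n), q * (lam n * F n) := by
    have ha : -(∑ n ∈ s.filter (fun n => ¬ R n), F n) ≤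
        -(∑ n ∈ sc.filter (fun n => ¬ R n), F n) := by
      apply neg_le_neg
      refine sum_le_sum_of_subset_of_nonneg ?_ fun n _ _ => hF0 n
      exact filter_subset_filter _ (filter_subset _ _)
    refine ha.trans ?_
    rw [← Finset.sum_neg_distrib]
    refine Finset.sum_le_sum fun n _ => ?_
    have h2 : |q * lam n| = 1 := by rw [abs_mul, hlx, lam_abs, one_mul]
    have h3 : -1 ≤ q * lam n := by
      have := neg_abs_le (q * lam n)
      rw [h2] at this
      exact this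
    nlinarith [mul_le_mul_of_nonneg_right h3 (hF0 n)]
  rw [hin]
  -- the centre
  set m : ℕ := ⌊4 * h⌋₊ with hm
  have hm1 : (m : ℝ) ≤ 4 * h := Nat.floor_le (by positivity)
  have hm2 : 4 * h - 1 < m := Nat.sub_one_lt_floor _
  have hmL : m < L := by
    have : (m : ℝ) < L := by linarith
    exact_mod_cast this
  have hcen : 0.0298 / P ≤ ∑ n ∈ sc.filter R, F n := by
    have h2 := prog_sum_ge hF0 (q := P) (a := a) (x := x + L) (m := m) hP (s := sc.filter R)
      (c := 0.0149 / h) (by positivity) (fun n hn1 hn2 hn3 => by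
        have h3 : (x : ℝ) ≤ n := by exact_mod_cast (by omega : x ≤ n)
        have h4 : (n : ℝ) ≤ x + L + m := by exact_mod_cast hn2
        have h5 : (x : ℝ) + L + 1 ≤ n := by exact_mod_cast hn1
        refine ⟨?_, ker_ge hh1 hX0 (by linarith) (by linarith) (by linarith) (by linarith)⟩
        rw [Finset.mem_filter, hsc, Finset.mem_filter]
        refine ⟨⟨?_, hn3⟩, ⟨by omega, by omega⟩⟩
        rw [hs, Finset.mem_Ioc]
        constructor
        · rw [Nat.floor_lt (by positivity)]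
          linarith
        · rw [Nat.le_floor_iff (by positivity)]
          linarith)
    refine le_trans ?_ h2
    have h6 : 2 * h ≤ (m : ℝ) - 2 * P := by linarith
    calc (0.0298 : ℝ) / P = (2 * h / P) * (0.0149 / h) := by
          field_simp
          norm_num
      _ ≤ (((m : ℝ) - 2 * P) / P) * (0.0149 / h) :=
          mul_le_mul_of_nonneg_right (div_le_div_of_nonneg_right h6 (by linarith)) (by positivity)
  -- outside
  have hLm : (1 : ℝ) < (L : ℝ) - 1 := by linarith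
  have hout2 : ∑ n ∈ s.filter (fun n => ¬ R n), F n ≤ 2 * (205 * h * (1 / ((L : ℝ) - 1 - 1))) := by
    have hsum : ∀ K : ℕ, ∑ k ∈ range K, 205 * h * (1 / ((L : ℝ) - 1 + k) ^ 2) ≤
        205 * h * (1 / ((L : ℝ) - 1 - 1)) := by
      intro K
      rw [← Finset.mul_sum]
      refine mul_le_mul_of_nonneg_left ?_ (by positivity)
      have h2 := sum_inv_sq_le hLm K
      have h3 : 0 ≤ 1 / ((L : ℝ) - 1 - 1 + K) := by
        have : (0 : ℝ) ≤ K := Nat.cast_nonneg _
        apply div_nonneg zero_le_one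
        linarith
      linarith
    rw [← Finset.sum_filter_add_sum_filter_not (s.filter (fun n => ¬ R n)) (fun n => n < x)]
    have hA1 : ∑ n ∈ (s.filter (fun n => ¬ R n)).filter (fun n => n < x), F n ≤
        205 * h * (1 / ((L : ℝ) - 1 - 1)) := by
      refine le_trans ?_ (hsum x)
      have h2 : ∀ n ∈ (s.filter (fun n => ¬ R n)).filter (fun n => n < x),
          F n ≤ 205 * h * (1 / ((L : ℝ) - 1 + ((x - 1 - n : ℕ) : ℝ)) ^ 2) := by
        intro n hn
        rw [Finset.mem_filter, Finset.mem_filter] at hn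
        have h3 := hsm n hn.1.1
        have h4 : ((x - 1 - n : ℕ) : ℝ) = (x : ℝ) - 1 - n := by
          rw [Nat.cast_sub (by omega), Nat.cast_sub (by omega), Nat.cast_one]
        have hn5 : (n : ℝ) + 1 ≤ x := by exact_mod_cast hn.2
        refine ker_le hh1 hX0 h3.1 h3.2 (by linarith) ?_ ?_
        · rw [h4]; linarith
        · rw [abs_sub_comm, abs_of_nonneg (by linarith), h4]
          linarith
      refine (Finset.sum_le_sum h2).trans ?_
      have h5 : ∑ n ∈ (s.filter (fun n => ¬ R n)).filter (fun n => n < x),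
          205 * h * (1 / ((L : ℝ) - 1 + ((x - 1 - n : ℕ) : ℝ)) ^ 2) =
          ∑ k ∈ ((s.filter (fun n => ¬ R n)).filter (fun n => n < x)).image
            (fun n => x - 1 - n), 205 * h * (1 / ((L : ℝ) - 1 + (k : ℝ)) ^ 2) := by
        rw [Finset.sum_image]
        intro a ha b hb hab
        have h6 := (Finset.mem_filter.mp ha).2
        have h7 := (Finset.mem_filter.mp hb).2
        simp only at hab
        omega
      rw [h5]
      refine Finset.sum_le_sum_of_subset_of_nonneg ?_ fun k _ _ => by positivity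
      intro k hk
      obtain ⟨n, hn, rfl⟩ := Finset.mem_image.mp hk
      have h6 := (Finset.mem_filter.mp hn).2
      rw [Finset.mem_range]
      omega
    have hA2 : ∑ n ∈ (s.filter (fun n => ¬ R n)).filter (fun n => ¬ n < x), F n ≤
        205 * h * (1 / ((L : ℝ) - 1 - 1)) := by
      refine le_trans ?_ (hsum (⌊4 * X⌋₊ + 1))
      have h2 : ∀ n ∈ (s.filter (fun n => ¬ R n)).filter (fun n => ¬ n < x),
          F n ≤ 205 * h * (1 / ((L : ℝ) - 1 + ((n - (x + 2 * L) : ℕ) : ℝ)) ^ 2) := by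
        intro n hn
        rw [Finset.mem_filter, Finset.mem_filter] at hn
        have h3 := hsm n hn.1.1
        have hge : x + 2 * L ≤ n := by
          by_contra hcon
          exact hn.1.2 ⟨by omega, by omega⟩
        have h4 : ((n - (x + 2 * L) : ℕ) : ℝ) = (n : ℝ) - (x + 2 * L) := by
          rw [Nat.cast_sub hge]; push_cast; ring
        have hn5 : (x : ℝ) + 2 * L ≤ n := by exact_mod_cast hge
        refine ker_le hh1 hX0 h3.1 h3.2 (by linarith) ?_ ?_
        · rw [h4]; linarith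
        · rw [abs_of_nonneg (by linarith), h4]
          linarith
      refine (Finset.sum_le_sum h2).trans ?_
      have h5 : ∑ n ∈ (s.filter (fun n => ¬ R n)).filter (fun n => ¬ n < x),
          205 * h * (1 / ((L : ℝ) - 1 + ((n - (x + 2 * L) : ℕ) : ℝ)) ^ 2) =
          ∑ k ∈ ((s.filter (fun n => ¬ R n)).filter (fun n => ¬ n < x)).image
            (fun n => n - (x + 2 * L)), 205 * h * (1 / ((L : ℝ) - 1 + (k : ℝ)) ^ 2) := by
        rw [Finset.sum_image]
        intro a ha b hb hab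
        have ha' := Finset.mem_filter.mp ha
        have hb' := Finset.mem_filter.mp hb
        have ha2 := (Finset.mem_filter.mp ha'.1).2
        have hb2 := (Finset.mem_filter.mp hb'.1).2
        have ha3 : x + 2 * L ≤ a := by
          by_contra hcon
          exact ha2 ⟨by omega, by omega⟩
        have hb3 : x + 2 * L ≤ b := by
          by_contra hcon
          exact hb2 ⟨by omega, by omega⟩
        simp only at hab
        omega
      rw [h5]
      refine Finset.sum_le_sum_of_subset_of_nonneg ?_ fun k _ _ => by positivity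
      intro k hk
      obtain ⟨n, hn, rfl⟩ := Finset.mem_image.mp hk
      have h6 := (Finset.mem_filter.mp (Finset.mem_filter.mp hn).1).1
      rw [hs, Finset.mem_Ioc] at h6
      rw [Finset.mem_range]
      omega
    linarith
  have hfin : 2 * (205 * h * (1 / ((L : ℝ) - 1 - 1))) ≤ 0.0103 / P := by
    have h2 : 39998 * (P * h) ≤ (L : ℝ) - 1 - 1 := by linarith
    have h3 : 1 / ((L : ℝ) - 1 - 1) ≤ 1 / (39998 * (P * h)) :=
      one_div_le_one_div_of_le (by positivity) h2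
    calc 2 * (205 * h * (1 / ((L : ℝ) - 1 - 1))) ≤ 2 * (205 * h * (1 / (39998 * (P * h)))) := by
          have : 0 ≤ 205 * h := by positivity
          nlinarith [mul_le_mul_of_nonneg_left h3 this]
      _ = (410 / 39998) / P := by
          field_simp
          norm_num
      _ ≤ 0.0103 / P := by
          apply div_le_div_of_nonneg_right _ (by linarith)
          norm_num
  have hend : 1 / (60 * (P : ℝ)) ≤ 0.0298 / P - 0.0103 / P := by
    have e : (0.0298 : ℝ) / P - 0.0103 / P = 0.0195 / P := by ring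
    rw [e, div_le_div_iff₀ (by positivity) (by positivity)]
    nlinarith
  linarith

/-- **Matomäki–Radziwiłł for all `λ χ` implies `NoRunsA`.** -/
theorem noRunsA (H : ∀ (q : ℕ) [NeZero q] (χ : DirichletCharacter ℂ q), MRDF (lamChi χ)) :
    NoRunsA := by
  intro P a hP ha δ hδ
  haveI : NeZero P := ⟨by omega⟩
  have hP0 : (1 : ℝ) ≤ P := by exact_mod_cast hP
  set τ : ℝ := (Fintype.card (DirichletCharacter ℂ P) : ℝ) with hτ
  have hτ0 : 0 < τ := by
    rw [hτ]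
    exact_mod_cast Fintype.card_pos
  choose hc hc1 Xc hXc using fun χ : DirichletCharacter ℂ P =>
    H P χ (δ / (40000 * P ^ 2 * τ ^ 2)) (by positivity)
  set h0 : ℝ := 1 + ∑ χ : DirichletCharacter ℂ P, hc χ with hh0d
  set X0 : ℝ := ∑ χ : DirichletCharacter ℂ P, |Xc χ| with hX0d
  have hcle : ∀ χ, hc χ ≤ h0 := by
    intro χ
    have := single_le_sum (f := hc) (fun χ _ => by linarith [hc1 χ]) (mem_univ χ)
    linarith
  have hXle : ∀ χ, Xc χ ≤ X0 := by
    intro χ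
    have := single_le_sum (f := fun χ => |Xc χ|) (fun χ _ => abs_nonneg _) (mem_univ χ)
    exact (le_abs_self _).trans this
  have hX00 : 0 ≤ X0 := sum_nonneg fun χ _ => abs_nonneg _
  have hh0 : 1 ≤ h0 := by
    have : 0 ≤ ∑ χ : DirichletCharacter ℂ P, hc χ :=
      sum_nonneg fun χ _ => by linarith [hc1 χ]
    linarith
  set h : ℝ := h0 * (2 * P) with hhd
  have hhP : 2 * (P : ℝ) ≤ h := le_mul_of_one_le_left (by linarith) hh0
  have hh1 : 1 ≤ h := by linarith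
  have hh0h : h0 ≤ h := le_mul_of_one_le_right (by linarith) (by linarith)
  have hX0 : ∀ χ : DirichletCharacter ℂ P, ∀ X : ℝ, X0 ≤ X → ∀ T : ℝ, 1 ≤ T → T ≤ X / h →
      ∫ t : ℝ, ‖AF (lamChi χ) X t‖ ^ 2 * g T t ≤ δ / (40000 * P ^ 2 * τ ^ 2) := by
    intro χ X hX T hT hTX
    refine hXc χ X ((hXle χ).trans hX) T hT (hTX.trans ?_)
    exact div_le_div_of_nonneg_left (hX00.trans hX) (by linarith [hc1 χ])
      ((hcle χ).trans hh0h)
  set L : ℕ := ⌈40000 * (P * h)⌉₊ with hLd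
  have hL : 40000 * (P * h) ≤ L := Nat.le_ceil _
  refine ⟨2 * L, max (4 * X0) (4 * ((L : ℝ) + 4 * h + 4)), fun X hX => ?_⟩
  have hX1 : 4 * X0 ≤ X := (le_max_left _ _).trans hX
  have hX2 : 4 * ((L : ℝ) + 4 * h + 4) ≤ X := (le_max_right _ _).trans hX
  have hL0 : (0 : ℝ) ≤ L := Nat.cast_nonneg _
  have hXpos : 0 < X := by linarith
  set R : Finset ℕ := (Icc ⌈X⌉₊ ⌊2 * X⌋₊).filter (fun x => ∀ i < 2 * L, ∀ j < 2 * L,
    x + i ≡ a [MOD P] → x + j ≡ a [MOD P] → lam (x + i) = lam (x + j)) with hR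
  have hδ1 : 4 * h / X ≤ 1 := by
    rw [div_le_one hXpos]
    linarith
  have hen := energyA ha hh1 hX0 hX1 (by linarith) hXpos (by positivity)
  set E : ℝ → ℝ := fun u =>
    ‖es (Ioc ⌊X / 4⌋₊ ⌊4 * X⌋₊) (fun n => Real.log n) (lbA P a) (4 * h / X) u‖ ^ 2 with hE
  have hEi : Integrable E := es_int (by positivity) _ _ _
  set I : ℕ → Set ℝ := fun x =>
    Set.Ico (Real.log ((x + L : ℕ) : ℝ)) (Real.log (((x + L : ℕ) : ℝ) + 1)) with hI
  have hmem : ∀ x ∈ R, X ≤ (x : ℝ) ∧ (x : ℝ) ≤ 2 * X ∧ ∀ i < 2 * L, ∀ j < 2 * L,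
      x + i ≡ a [MOD P] → x + j ≡ a [MOD P] → lam (x + i) = lam (x + j) := by
    intro x hx
    rw [hR, Finset.mem_filter, Finset.mem_Icc] at hx
    exact ⟨Nat.ceil_le.1 hx.1.1, (Nat.le_floor_iff (by positivity)).1 hx.1.2, hx.2⟩
  have hdisj : Set.Pairwise (↑R : Set ℕ) (Function.onFun Disjoint I) := by
    intro x hx y hy hxy
    have hx0 : (0 : ℝ) < ((x + L : ℕ) : ℝ) := by
      push_cast; linarith [(hmem x hx).1]
    have hy0 : (0 : ℝ) < ((y + L : ℕ) : ℝ) := by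
      push_cast; linarith [(hmem y hy).1]
    rw [Function.onFun, Set.disjoint_left]
    intro u hux huy
    simp only [hI, Set.mem_Ico] at hux huy
    have a1 := (Real.log_le_iff_le_exp hx0).1 hux.1
    have a2 := (Real.lt_log_iff_exp_lt (by linarith)).1 hux.2
    have b1 := (Real.log_le_iff_le_exp hy0).1 huy.1
    have b2 := (Real.lt_log_iff_exp_lt (by linarith)).1 huy.2
    have c1 : ((x + L : ℕ) : ℝ) < ((y + L : ℕ) : ℝ) + 1 := lt_of_le_of_lt a1 b2
    have c2 : ((y + L : ℕ) : ℝ) < ((x + L : ℕ) : ℝ) + 1 := lt_of_le_of_lt b1 a2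
    have c3 : x + L < y + L + 1 := by exact_mod_cast c1
    have c4 : y + L < x + L + 1 := by exact_mod_cast c2
    exact hxy (by omega)
  have hunion : ∑ x ∈ R, ∫ u in I x, E u ≤ ∫ u, E u := by
    rw [← integral_biUnion_finset R (fun x _ => measurableSet_Ico) hdisj
      (fun x _ => hEi.integrableOn)]
    exact setIntegral_le_integral hEi (Filter.Eventually.of_forall fun u => by
      simp only [hE, Pi.zero_apply]; positivity)
  have hone : ∀ x ∈ R, (1 / (60 * (P : ℝ))) ^ 2 * (1 / (3 * X)) ≤ ∫ u in I x, E u := by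
    intro x hx
    obtain ⟨hx1, hx2, hx3⟩ := hmem x hx
    have hx0 : (0 : ℝ) < ((x + L : ℕ) : ℝ) := by push_cast; linarith
    have h1 : ∫ _ in I x, (1 / (60 * (P : ℝ))) ^ 2 ≤ ∫ u in I x, E u := by
      refine setIntegral_mono_on ?_ hEi.integrableOn measurableSet_Ico fun u hu => ?_
      · exact integrableOn_const (by simp [hI])
      · simp only [hI, Set.mem_Ico] at hu
        have a1 := (Real.log_le_iff_le_exp hx0).1 hu.1
        have a2 := (Real.lt_log_iff_exp_lt (by linarith)).1 hu.2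
        have h2 := es_lowerA hP hhP hX2 hL hx1 hx2 hx3 a1 a2
        simp only [hE]
        exact pow_le_pow_left₀ (by positivity) h2 2
    refine le_trans ?_ h1
    rw [setIntegral_const]
    simp only [hI, measureReal_def, Real.volume_Ico, smul_eq_mul]
    have h3 : (((x + L : ℕ) : ℝ) + 1 - ((x + L : ℕ) : ℝ)) / (3 * X) ≤
        Real.log (((x + L : ℕ) : ℝ) + 1) - Real.log ((x + L : ℕ) : ℝ) := by
      apply log_spacing_real hx0 (by linarith)
      push_cast
      linarith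
    have h4 : (((x + L : ℕ) : ℝ) + 1 - ((x + L : ℕ) : ℝ)) = 1 := by ring
    rw [h4] at h3
    have h5 : 0 ≤ Real.log (((x + L : ℕ) : ℝ) + 1) - Real.log ((x + L : ℕ) : ℝ) :=
      le_trans (by positivity) h3
    rw [ENNReal.toReal_ofReal h5, mul_comm]
    exact mul_le_mul_of_nonneg_right h3 (by positivity)
  have hcard : (R.card : ℝ) * ((1 / (60 * (P : ℝ))) ^ 2 * (1 / (3 * X))) ≤
      τ ^ 2 * (3 * (δ / (40000 * P ^ 2 * τ ^ 2))) := by
    calc (R.card : ℝ) * ((1 / (60 * (P : ℝ))) ^ 2 * (1 / (3 * X)))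
        = ∑ _x ∈ R, (1 / (60 * (P : ℝ))) ^ 2 * (1 / (3 * X)) := by
          rw [Finset.sum_const, nsmul_eq_mul]
      _ ≤ ∑ x ∈ R, ∫ u in I x, E u := Finset.sum_le_sum hone
      _ ≤ ∫ u, E u := hunion
      _ ≤ τ ^ 2 * (3 * (δ / (40000 * P ^ 2 * τ ^ 2))) := hen
  have h6 : (R.card : ℝ) * ((1 / (60 * (P : ℝ))) ^ 2 * (1 / (3 * X))) =
      R.card / (10800 * P ^ 2 * X) := by
    field_simp
    ring
  have h7 : τ ^ 2 * (3 * (δ / (40000 * P ^ 2 * τ ^ 2))) * (10800 * P ^ 2 * X) =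
      (32400 / 40000) * (δ * X) := by
    field_simp
    ring
  rw [h6, div_le_iff₀ (by positivity), h7] at hcard
  nlinarith [mul_pos hδ hXpos]

end Pool.Agent.MRAP.NR

namespace Pool.Agent.MRAP

open Pool.Agent.MRF in
/-- **Row A6.** -/
theorem noRunsA (H : ∀ (q : ℕ) [NeZero q] (χ : DirichletCharacter ℂ q), MRDF (lamChi χ)) :
    NoRunsA := NR.noRunsA H

end Pool.Agent.MRAP
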