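import Pool.Agent.Lib.MRAP.Chain
import Pool.Agent.Lib.MRAP.Link
import Pool.Agent.Lib.MRAP.NRA
import Pool.Agent.Lib.MRAP.End
import Pool.Agent.Lib.MRAP.FinalA
import Pool.Agent.Lib.MRAP.Form
import Pool.Agent.Lib.MRZ.SMZF
import Pool.Agent.Lib.MRZ.Typ
import Pool.Agent.Lib.PO69.E3
import Pool.Agent.Lib.PO69.E4w
import Pool.Agent.Lib.MRF.Top
import Pool.Agent.Lib.MRL.Top

/-! TANK MR, the lift to residue classes: assembly, no hypothesis. -/

set_option autoImplicit false

namespace Pool.Agent.MRAP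

open Pool.Agent.MRL Pool.Agent.MRF

theorem noRunsA_all : NoRunsA := noRunsA fun _ _ χ => mrdF_lamChi χ

theorem linkA_all : LinkA :=
  linkA chainA Pool.Agent.MRZ.secondMomentZ Pool.Agent.PO69.equi Pool.Agent.PO69.sieveDensity
    (Pool.Agent.PO69.primeSet mertensLower)

theorem endA_all : EndA := endA linkA_all noRunsA_all

theorem finalA_all : FinalA := finalA endA_all Pool.Agent.MRZ.typ

end Pool.Agent.MRAP
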