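import Pool.Agent.Lib.MRAP.Top
import Pool.Agent.Lib.MRAP.FinalA70

/-! TANK MR, the lift to residue classes with the count `√t / (log t)^{7/10}`: assembly, no
hypothesis; and the natural form of the statement. -/

set_option autoImplicit false

namespace Pool.Agent.MRAP

open Finset Pool.Agent.MRL

theorem finalA70_all : FinalA70 := finalA70 endA_all Pool.Agent.MRZ.typ

/-- The natural form: for all residues `a mod q` and `c > 0`. -/
theorem result70_of (H : FinalA70) (q a : ℕ) (c : ℝ) (hq : 1 ≤ q) (hc : 0 < c) :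
    ∃ t₀ : ℝ, ∀ t : ℝ, t₀ ≤ t →
      √t / Real.log t ^ (7 / 10 : ℝ) ≤ (({n : ℕ | t < n ∧ (n : ℝ) < t + c * √t ∧ n ≡ a [MOD q] ∧
        Even (ArithmeticFunction.cardFactors n)}.ncard : ℕ) : ℝ) ∧
      √t / Real.log t ^ (7 / 10 : ℝ) ≤ (({n : ℕ | t < n ∧ (n : ℝ) < t + c * √t ∧ n ≡ a [MOD q] ∧
        Odd (ArithmeticFunction.cardFactors n)}.ncard : ℕ) : ℝ) := by
  obtain ⟨t₀, h⟩ := H q a c hq hc
  refine ⟨t₀, fun t ht => ?_⟩
  obtain ⟨h1, h2⟩ := h t ht
  rw [card_prog_eq] at h1 h2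
  exact ⟨h1, h2⟩

end Pool.Agent.MRAP
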